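import Pool.Agent.W78.GA.Defs
import Pool.Agent.H376R2.MR.LevB

/-! Project GA (helper78), task GA-1: the abstract machine, the level `j+1`.
Port of `H970R2/X/LevB`. -/

set_option autoImplicit false

namespace Pool.Agent.W240.GA
open Finset Filter Pool.Agent.H376R2.MR Pool.Agent.W78.GA

/-- the pure inequality -/
theorem levb_real' {C α : ℝ} (hC1 : 1 ≤ C) (hα : 0 < α) (hα1 : α ≤ 1) {L : ℕ} (hL4 : 4 ≤ L)
    (hCL : C ≤ L)
    (hL : 520 ≤ α * Real.sqrt L) (j : ℕ) {l x : ℝ} (hl : l = (L : ℝ) ^ 3 ^ j)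
    (hx1 : l ^ 3 ≤ x) (hx2 : x ≤ l ^ 6) (n : ℕ) (hn : (n : ℝ) ≤ x / l + 1) :
    2 * l ^ 21 * (Real.exp (-(α / 2 ^ (j + 1)) * x + 2 * l ^ 2) *
      (C ^ (n + 1) * (n.factorial : ℝ) ^ 8)) ≤ 1 / (3 * Real.log l) := by
  have hLr : (4 : ℝ) ≤ L := by exact_mod_cast hL4
  have hge := levb_l_ge hL4 j
  rw [← hl] at hge
  have h4j : (1 : ℝ) ≤ 4 ^ j := one_le_pow₀ (by norm_num)
  have hCl : C ≤ l := by nlinarith
  -- `√l ≥ √L 2^j ≥ 520 2^j / α`
  have hsq : Real.sqrt L * 2 ^ j ≤ Real.sqrt l := by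
    apply Real.le_sqrt_of_sq_le
    have : (Real.sqrt L * 2 ^ j) ^ 2 = (L : ℝ) * 4 ^ j := by
      rw [mul_pow, Real.sq_sqrt (by linarith), ← pow_mul, mul_comm j 2, pow_mul]
      norm_num
    rw [this]
    exact hge
  have hsL : 520 ≤ Real.sqrt L := by
    have := Real.sqrt_nonneg (L : ℝ)
    nlinarith
  have h2j : (1 : ℝ) ≤ 2 ^ j := one_le_pow₀ (by norm_num)
  have hsl : 520 ≤ Real.sqrt l := by nlinarith
  have hl0 : 0 < l := by nlinarith
  have hl1 : 270400 ≤ l := by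
    have := Real.mul_self_sqrt hl0.le
    nlinarith
  have hlog1 : 1 ≤ Real.log l := by
    rw [Real.le_log_iff_exp_le hl0]
    have := Real.exp_one_lt_d9
    linarith
  have hlogs := levb_log_le hl0
  -- the key: `260 · 2^j · log l ≤ α l`
  have hkey : 260 * 2 ^ j * Real.log l ≤ α * l := by
    have e1 : 520 * 2 ^ j ≤ α * Real.sqrt l := by
      have : α * (Real.sqrt L * 2 ^ j) ≤ α * Real.sqrt l := mul_le_mul_of_nonneg_left hsq hα.le
      nlinarith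
    have e2 : α * l = (α * Real.sqrt l) * Real.sqrt l := by
      rw [mul_assoc, Real.mul_self_sqrt hl0.le]
    rw [e2]
    have e3 : 520 * 2 ^ j * Real.sqrt l ≤ (α * Real.sqrt l) * Real.sqrt l :=
      mul_le_mul_of_nonneg_right e1 (Real.sqrt_nonneg l)
    have e4 : 260 * 2 ^ j * Real.log l ≤ 260 * 2 ^ j * (2 * Real.sqrt l) :=
      mul_le_mul_of_nonneg_left hlogs (by positivity)
    linarith
  have hx0 : 0 < x := lt_of_lt_of_le (by positivity) hx1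
  -- `x / l ≥ l² ≥ 1`
  have hxl : l ^ 2 ≤ x / l := by
    rw [le_div_iff₀ hl0]
    have : l ^ 2 * l = l ^ 3 := by ring
    rw [this]
    exact hx1
  have hll : 1 ≤ l ^ 2 := by nlinarith
  have hn2 : (n : ℝ) ≤ 2 * (x / l) := by linarith
  have hxl2 : x / l ≤ l ^ 5 := by
    rw [div_le_iff₀ hl0]
    have : l ^ 5 * l = l ^ 6 := by ring
    rw [this]
    exact hx2
  have hn6 : (n : ℝ) ≤ l ^ 6 := by
    have : 2 * l ^ 5 ≤ l ^ 6 := by
      have : l ^ 6 = l * l ^ 5 := by ring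
      rw [this]
      have h5 : 0 < l ^ 5 := by positivity
      nlinarith
    linarith
  -- factorial
  have hfact : (n.factorial : ℝ) ^ 8 ≤ Real.exp (96 * (x / l) * Real.log l) := by
    have h1 := levb_fact n (X := l ^ 6) (one_le_pow₀ (by linarith)) hn6
    rw [Real.log_pow] at h1
    have h2 : (n.factorial : ℝ) ≤ Real.exp (12 * (x / l) * Real.log l) := by
      refine h1.trans (Real.exp_le_exp.2 ?_)
      have : (n : ℝ) * (6 * Real.log l) ≤ 2 * (x / l) * (6 * Real.log l) :=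
        mul_le_mul_of_nonneg_right hn2 (by linarith)
      push_cast
      linarith
    have h3 : (n.factorial : ℝ) ^ 8 ≤ (Real.exp (12 * (x / l) * Real.log l)) ^ 8 :=
      pow_le_pow_left₀ (Nat.cast_nonneg _) h2 8
    rw [← Real.exp_nat_mul] at h3
    refine h3.trans (Real.exp_le_exp.2 ?_)
    push_cast
    linarith
  -- the power of `C`
  have hpoly : C ^ (n + 1) ≤ Real.exp (3 * (x / l) * Real.log l) := by
    have h1 : C ^ (n + 1) ≤ l ^ (n + 1) := pow_le_pow_left₀ (by linarith) hCl _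
    have h2 : l ^ (n + 1) = Real.exp (((n + 1 : ℕ) : ℝ) * Real.log l) := by
      rw [mul_comm, ← Real.rpow_def_of_pos hl0, Real.rpow_natCast]
    rw [h2] at h1
    refine h1.trans (Real.exp_le_exp.2 ?_)
    refine mul_le_mul_of_nonneg_right ?_ (by linarith)
    push_cast
    linarith
  -- exponent
  have hS : 24 * Real.log l + (-(α / 2 ^ (j + 1)) * x + 2 * l ^ 2) +
      3 * (x / l) * Real.log l + 96 * (x / l) * Real.log l ≤ 0 := by
    set y := x / l with hy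
    have hxy : x = y * l := by rw [hy]; field_simp
    have hy1 : 1 ≤ y := by linarith
    have e1 : 130 * Real.log l ≤ α / 2 ^ (j + 1) * l := by
      rw [div_mul_eq_mul_div, le_div_iff₀ (by positivity), pow_succ]
      linarith
    have e2 : Real.log l ≤ y * Real.log l := le_mul_of_one_le_left (by linarith) hy1
    have e3 : l ^ 2 ≤ y * Real.log l := hxl.trans (le_mul_of_one_le_right (by linarith) hlog1)
    have e4 : y * (130 * Real.log l) ≤ y * (α / 2 ^ (j + 1) * l) :=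
      mul_le_mul_of_nonneg_left e1 (by linarith)
    have e5 : 0 ≤ y * Real.log l := mul_nonneg (by linarith) (by linarith)
    rw [hxy]
    have e6 : -(α / 2 ^ (j + 1)) * (y * l) = -(y * (α / 2 ^ (j + 1) * l)) := by ring
    have e7 : y * (130 * Real.log l) = 130 * (y * Real.log l) := by ring
    have e8 : 3 * y * Real.log l = 3 * (y * Real.log l) := by ring
    have e9 : 96 * y * Real.log l = 96 * (y * Real.log l) := by ring
    rw [e6, e8, e9]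
    rw [e7] at e4
    linarith
  have hexp : Real.exp (24 * Real.log l) * Real.exp (-(α / 2 ^ (j + 1)) * x + 2 * l ^ 2) *
      Real.exp (3 * (x / l) * Real.log l) * Real.exp (96 * (x / l) * Real.log l) ≤ 1 := by
    rw [← Real.exp_add, ← Real.exp_add, ← Real.exp_add]
    exact Real.exp_le_one_iff.2 hS
  have hl24 : Real.exp (24 * Real.log l) = l ^ 24 := by
    rw [mul_comm, ← Real.rpow_def_of_pos hl0]
    norm_cast
  rw [hl24] at hexp
  rw [le_div_iff₀ (by linarith)]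
  have hloglel : Real.log l ≤ l := by
    have := Real.log_le_sub_one_of_pos hl0
    linarith
  set E := Real.exp (-(α / 2 ^ (j + 1)) * x + 2 * l ^ 2) with hE
  set Cx := Real.exp (3 * (x / l) * Real.log l) with hCx
  set Fc := Real.exp (96 * (x / l) * Real.log l) with hFc
  have hE0 : 0 < E := Real.exp_pos _
  have hC0 : 0 < Cx := Real.exp_pos _
  have hF0 : 0 < Fc := Real.exp_pos _
  have hCn0 : 0 ≤ C ^ (n + 1) := pow_nonneg (by linarith) _
  have h54 : 6 ≤ l ^ 2 := by nlinarith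
  calc 2 * l ^ 21 * (E * (C ^ (n + 1) * (n.factorial : ℝ) ^ 8)) * (3 * Real.log l)
      ≤ 2 * l ^ 21 * (E * (Cx * Fc)) * (3 * l) := by
        gcongr
    _ = 6 * (l ^ 22 * E * Cx * Fc) := by ring
    _ ≤ l ^ 2 * (l ^ 22 * E * Cx * Fc) := by
        apply mul_le_mul_of_nonneg_right h54
        positivity
    _ = l ^ 24 * E * Cx * Fc := by ring
    _ ≤ 1 := hexp

/-- one cell on each of the two levels -/
theorem xlevb_vr' {P : ℕ → ℕ → ℤ → ℂ} {G : ℝ → ℤ → ℂ} {C₀ : ℝ} (hC₀ : 0 ≤ C₀) (hmom : ∀ (H r ℓ K : ℕ) (Z : ℝ), 1 ≤ H → 3 ≤ Z → 1 ≤ K →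
    (K : ℝ) ≤ Z * Real.exp ((r : ℝ) * ℓ / H) →
    ∑ k ∈ FK K, ‖P H r k ^ ℓ * G Z k‖ ^ 2 ≤
      C₀ ^ (ℓ + 1) * (ℓ.factorial : ℝ) ^ 8)
    {α : ℝ} (hα : 0 < α) (hα1 : α ≤ 1) {lN hN v r K : ℕ} (j : ℕ) {Y : ℝ} (hl : 1 ≤ lN)
    (hh1 : 1 ≤ hN) (hv2 : v < hN ^ 3) (hr1 : lN ^ 2 ≤ r)
    (hr2 : r < lN ^ 3) (hK : 1 ≤ K) (hKY : (K : ℝ) ≤ Y) (hY : Real.exp (4 * (hN : ℝ) ^ 2) ≤ Y)
    (T : Finset ℤ) (hT : T ⊆ FK K)
    (hT1 : ∀ k ∈ T, ‖P hN v k‖ ≤ Real.exp (-(aa α (j + 1) * v / hN))) :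
    ∃ n : ℕ, (n : ℝ) ≤ ((v : ℝ) / hN) / lN + 1 ∧
    (open scoped Classical in
    ∑ k ∈ T, (if Real.exp (-(aa α j * r / lN)) < ‖P lN r k‖ then
      ‖P hN v k * G (Y * Real.exp (-((v : ℝ) / hN))) k‖ ^ 2 else 0)) ≤
      Real.exp (-(α / 2 ^ (j + 1)) * ((v : ℝ) / hN) + 2 * (lN : ℝ) ^ 2) *
        (C₀ ^ (n + 1) * (n.factorial : ℝ) ^ 8) := by
  classical
  have hlr : (1 : ℝ) ≤ lN := by exact_mod_cast hl
  have hhr : (1 : ℝ) ≤ hN := by exact_mod_cast hh1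
  set x : ℝ := (v : ℝ) / hN with hx
  set y : ℝ := (r : ℝ) / lN with hy
  have hx0 : 0 ≤ x := by positivity
  have hxlt : x < (hN : ℝ) ^ 2 := by
    rw [hx, div_lt_iff₀ (by linarith)]
    have h1 : (v : ℝ) < (hN : ℝ) ^ 3 := by exact_mod_cast hv2
    calc (v : ℝ) < (hN : ℝ) ^ 3 := h1
      _ = (hN : ℝ) ^ 2 * hN := by ring
  have hy1 : (lN : ℝ) ≤ y := by
    rw [hy, le_div_iff₀ (by linarith)]
    have h1 : (lN : ℝ) ^ 2 ≤ r := by exact_mod_cast hr1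
    calc (lN : ℝ) * lN = (lN : ℝ) ^ 2 := by ring
      _ ≤ r := h1
  have hy2 : y ≤ (lN : ℝ) ^ 2 := by
    rw [hy, div_le_iff₀ (by linarith)]
    have h1 : (r : ℝ) ≤ (lN : ℝ) ^ 3 := by exact_mod_cast hr2.le
    calc (r : ℝ) ≤ (lN : ℝ) ^ 3 := h1
      _ = (lN : ℝ) ^ 2 * lN := by ring
  have hy0 : 0 < y := by linarith
  set n : ℕ := ⌈x / y⌉₊ with hn
  have hn1 : x ≤ n * y := by
    have := Nat.le_ceil (x / y)
    rwa [div_le_iff₀ hy0] at this
  have hn2 : (n : ℝ) < x / y + 1 := Nat.ceil_lt_add_one (by positivity)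
  have hn3 : n * y ≤ x + (lN : ℝ) ^ 2 := by
    have : (n : ℝ) * y ≤ (x / y + 1) * y := mul_le_mul_of_nonneg_right hn2.le hy0.le
    rw [add_mul, div_mul_cancel₀ _ hy0.ne', one_mul] at this
    linarith
  have hn4 : (n : ℝ) ≤ x / lN + 1 := by
    have : x / y ≤ x / lN := div_le_div_of_nonneg_left hx0 (by linarith) hy1
    linarith
  refine ⟨n, hn4, ?_⟩
  set Z : ℝ := Y * Real.exp (-x) with hZ
  have hZ3 : 3 ≤ Z := by
    have h1 : Real.exp 3 ≤ Z := by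
      have h2 : Real.exp (4 * (hN : ℝ) ^ 2) * Real.exp (-x) ≤ Z :=
        mul_le_mul_of_nonneg_right hY (Real.exp_pos _).le
      rw [← Real.exp_add] at h2
      refine le_trans (Real.exp_le_exp.2 ?_) h2
      nlinarith
    have h3 : (3 : ℝ) + 1 ≤ Real.exp 3 := Real.add_one_le_exp 3
    linarith
  have hKZ : (K : ℝ) ≤ Z * Real.exp ((r : ℝ) * n / lN) := by
    have h1 : (r : ℝ) * n / lN = n * y := by rw [hy]; ring
    rw [h1, hZ, mul_assoc, ← Real.exp_add]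
    have h2 : 1 ≤ Real.exp (-x + n * y) := Real.one_le_exp (by linarith)
    have hY0 : 0 ≤ Y := le_trans (Nat.cast_nonneg K) hKY
    calc (K : ℝ) ≤ Y := hKY
      _ = Y * 1 := (mul_one Y).symm
      _ ≤ _ := mul_le_mul_of_nonneg_left h2 hY0
  have hmain := hmom lN r n K Z hl hZ3 hK hKZ
  set E₀ : ℝ := Real.exp (-(2 * aa α (j + 1) * x) + 2 * aa α j * (n * y)) with hE₀
  have hE₀pos : 0 < E₀ := Real.exp_pos _
  have hpt : ∀ k ∈ T, (if Real.exp (-(aa α j * r / lN)) < ‖P lN r k‖ then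
      ‖P hN v k * G Z k‖ ^ 2 else 0) ≤ E₀ * ‖P lN r k ^ n * G Z k‖ ^ 2 := by
    intro k hk
    split_ifs with hc
    · rw [norm_mul, norm_mul, norm_pow, mul_pow, mul_pow]
      have h1 := hT1 k hk
      have e1 : aa α (j + 1) * v / hN = aa α (j + 1) * x := by rw [hx]; ring
      have e2 : aa α j * r / lN = aa α j * y := by rw [hy]; ring
      rw [e1] at h1
      rw [e2] at hc
      have h2 : ‖P hN v k‖ ^ 2 ≤ Real.exp (-(aa α (j + 1) * x)) ^ 2 :=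
        pow_le_pow_left₀ (norm_nonneg _) h1 2
      have h3 : (Real.exp (-(aa α j * y)) ^ n) ^ 2 ≤ (‖P lN r k‖ ^ n) ^ 2 :=
        pow_le_pow_left₀ (by positivity) (pow_le_pow_left₀ (Real.exp_pos _).le hc.le n) 2
      have h4 : Real.exp (-(aa α (j + 1) * x)) ^ 2 =
          E₀ * (Real.exp (-(aa α j * y)) ^ n) ^ 2 := by
        rw [← Real.exp_nat_mul, ← Real.exp_nat_mul, ← Real.exp_nat_mul, hE₀, ← Real.exp_add]
        congr 1
        push_cast
        ring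
      rw [← mul_assoc]
      apply mul_le_mul_of_nonneg_right _ (by positivity)
      calc ‖P hN v k‖ ^ 2 ≤ E₀ * (Real.exp (-(aa α j * y)) ^ n) ^ 2 := by rw [← h4]; exact h2
        _ ≤ E₀ * (‖P lN r k‖ ^ n) ^ 2 := mul_le_mul_of_nonneg_left h3 hE₀pos.le
    · positivity
  have hEE : E₀ ≤ Real.exp (-(α / 2 ^ (j + 1)) * x + 2 * (lN : ℝ) ^ 2) := by
    rw [hE₀]
    apply Real.exp_le_exp.2
    have h1 := levb_aa (α := α) j
    have h2 := levb_aa_nonneg hα j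
    have h3 := levb_aa_le hα hα1 j
    have h4 : aa α j * (n * y) ≤ aa α j * (x + (lN : ℝ) ^ 2) := mul_le_mul_of_nonneg_left hn3 h2
    have h5 : aa α j * (lN : ℝ) ^ 2 ≤ 1 * (lN : ℝ) ^ 2 :=
      mul_le_mul_of_nonneg_right h3 (by positivity)
    rw [← h1]
    nlinarith
  calc ∑ k ∈ T, (if Real.exp (-(aa α j * r / lN)) < ‖P lN r k‖ then
      ‖P hN v k * G Z k‖ ^ 2 else 0)
      ≤ ∑ k ∈ T, E₀ * ‖P lN r k ^ n * G Z k‖ ^ 2 := Finset.sum_le_sum hpt
    _ ≤ ∑ k ∈ FK K, E₀ * ‖P lN r k ^ n * G Z k‖ ^ 2 :=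
        Finset.sum_le_sum_of_subset_of_nonneg hT fun k _ _ => by positivity
    _ = E₀ * ∑ k ∈ FK K, ‖P lN r k ^ n * G Z k‖ ^ 2 := by rw [Finset.mul_sum]
    _ ≤ E₀ * (C₀ ^ (n + 1) * (n.factorial : ℝ) ^ 8) :=
        mul_le_mul_of_nonneg_left hmain hE₀pos.le
    _ ≤ Real.exp (-(α / 2 ^ (j + 1)) * x + 2 * (lN : ℝ) ^ 2) *
        (C₀ ^ (n + 1) * (n.factorial : ℝ) ^ 8) := by
        apply mul_le_mul_of_nonneg_right hEE
        positivity


theorem levb : S_LEVB := by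
  classical
  intro P m G hM
  obtain ⟨c, hc, CW', hWW⟩ := hM.rich
  obtain ⟨CD, hCD, β, hβ, Z₀, hdec⟩ := hM.dec
  obtain ⟨C₀, hC₀1, hmom⟩ := hM.mom
  have hC₀ : 0 < C₀ := by linarith
  obtain ⟨CW, hCWdef⟩ : ∃ CW : ℝ, CW = |CW'| := ⟨_, rfl⟩
  have hCW0 : 0 ≤ CW := by rw [hCWdef]; exact abs_nonneg _
  have hCW1 : CW' ≤ CW := by rw [hCWdef]; exact le_abs_self _
  obtain ⟨CB, hCBdef⟩ : ∃ CB : ℝ, CB = (2 * CW + 2) / c := ⟨_, rfl⟩
  have hCB0 : 0 < CB := by rw [hCBdef]; positivity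
  have hcCB : c * CB = 2 * CW + 2 := by rw [hCBdef]; field_simp
  obtain ⟨κ, hκdef⟩ : ∃ κ : ℝ, κ = 2 / c + 1 := ⟨_, rfl⟩
  have hκ0 : 0 < κ := by rw [hκdef]; positivity
  refine ⟨1 + 2 * (CD * κ), by positivity, fun α hα hα1 => ?_⟩
  refine ⟨max (max 4 ⌈C₀⌉₊) (max ⌈(520 / α) ^ 2⌉₊ ⌈Real.exp CB⌉₊), fun L hL j Y K hY hK hKY => ?_⟩
  have hL4 : 4 ≤ L := le_trans (le_trans (le_max_left _ _) (le_max_left _ _)) hL
  have hCL : C₀ ≤ (L : ℝ) := by
    have h1 : ⌈C₀⌉₊ ≤ L := le_trans (le_trans (le_max_right _ _) (le_max_left _ _)) hL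
    exact (Nat.le_ceil _).trans (by exact_mod_cast h1)
  have hL2 : (520 / α) ^ 2 ≤ (L : ℝ) := by
    have h1 : ⌈(520 / α) ^ 2⌉₊ ≤ L := le_trans (le_trans (le_max_left _ _) (le_max_right _ _)) hL
    exact (Nat.le_ceil _).trans (by exact_mod_cast h1)
  have hL3 : Real.exp CB ≤ (L : ℝ) := by
    have h1 : ⌈Real.exp CB⌉₊ ≤ L :=
      le_trans (le_trans (le_max_right _ _) (le_max_right _ _)) hL
    exact (Nat.le_ceil _).trans (by exact_mod_cast h1)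
  have hLr : (4 : ℝ) ≤ L := by exact_mod_cast hL4
  have hLα : 520 ≤ α * Real.sqrt L := by
    have h1 : 520 / α ≤ Real.sqrt L := Real.le_sqrt_of_sq_le hL2
    rw [div_le_iff₀ hα] at h1
    linarith
  have hlogL : CB ≤ Real.log L := by
    rw [Real.le_log_iff_exp_le (by linarith)]
    exact hL3
  -- the two levels
  set lN : ℕ := LL L j with hlN
  have hhN : LL L (j + 1) = lN ^ 3 := levb_LL_succ L j
  set hN : ℕ := LL L (j + 1) with hhNdef
  have hl1 : 1 ≤ lN := Nat.one_le_pow _ _ (by omega)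
  have hh1 : 1 ≤ hN := Nat.one_le_pow _ _ (by omega)
  have hlr : (1 : ℝ) ≤ lN := by exact_mod_cast hl1
  have hhr : (1 : ℝ) ≤ hN := by exact_mod_cast hh1
  have hlreal : (lN : ℝ) = (L : ℝ) ^ 3 ^ j := by
    rw [hlN]
    unfold LL
    push_cast
    rfl
  have hhreal : (hN : ℝ) = (lN : ℝ) ^ 3 := by
    rw [hhN]
    push_cast
    rfl
  have hlogl : 3 * Real.log (lN : ℝ) = 3 ^ (j + 1) * Real.log L := by
    rw [hlreal, Real.log_pow]
    push_cast
    ring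
  have hlogh : Real.log (hN : ℝ) = 3 ^ (j + 1) * Real.log L := by
    rw [hhreal, Real.log_pow, ← hlogl]
    push_cast
    ring
  set D : ℝ := 3 ^ (j + 1) * Real.log L with hD
  have h3j : (1 : ℝ) ≤ 3 ^ (j + 1) := one_le_pow₀ (by norm_num)
  have hDge : CB ≤ D := by
    rw [hD]
    nlinarith
  have hD0 : 0 < D := by linarith
  -- `W`
  have hhh2 : hN ≤ hN ^ 2 := Nat.le_self_pow (by norm_num) _
  have hh23 : hN ^ 2 ≤ hN ^ 3 := Nat.pow_le_pow_right hh1 (by norm_num)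
  have hWb := hWW hN (hN ^ 2) (hN ^ 3) hh1 hhh2 hh23
  have hratio : ((hN ^ 3 : ℕ) : ℝ) / ((hN ^ 2 : ℕ) : ℝ) = hN := by
    push_cast
    field_simp
  rw [hratio, hlogh] at hWb
  set W := ∑ v ∈ Ico (hN ^ 2) (hN ^ 3), m hN v with hWdef
  have hcD : 2 * CW + 2 ≤ c * D := by
    rw [← hcCB]
    exact mul_le_mul_of_nonneg_left hDge hc.le
  have hWge : c * D / 2 ≤ W := by linarith
  have hW1 : 1 ≤ W := by linarith
  have hYdec : Real.exp (4 * ((hN ^ 3 : ℕ) : ℝ) / hN) ≤ Y := by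
    have : 4 * ((hN ^ 3 : ℕ) : ℝ) / hN = 4 * (hN : ℝ) ^ 2 := by
      push_cast
      field_simp
    rw [this]
    exact hY
  obtain ⟨E, hGG, hE, -⟩ := hdec hN (hN ^ 2) (hN ^ 3) hh1 hhh2 hW1 Y hYdec
  -- second part
  have hpart2 : ∑ k ∈ FK K, ‖E k‖ ^ 2 ≤ CD * κ / D := by
    have h5 : 1 / W + 1 / (hN : ℝ) ^ 2 ≤ κ / D := by
      have h6 : 1 / W ≤ (2 / c) / D := by
        rw [div_div, div_le_div_iff₀ (by linarith) (by positivity)]
        linarith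
      have h7 : 1 / (hN : ℝ) ^ 2 ≤ 1 / D := by
        apply one_div_le_one_div_of_le hD0
        rw [← hlogh]
        have := Real.log_le_sub_one_of_pos (show (0:ℝ) < hN by linarith)
        nlinarith
      have h8 : κ / D = (2 / c) / D + 1 / D := by rw [hκdef]; ring
      rw [h8]
      linarith
    calc ∑ k ∈ FK K, ‖E k‖ ^ 2 ≤ CD * (1 / W + 1 / (hN : ℝ) ^ 2) := hE K hK hKY
      _ ≤ CD * (κ / D) := mul_le_mul_of_nonneg_left h5 hCD.le
      _ = _ := by ring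
  -- first part
  set T := (FK K).filter (fun k => SmjA P L α (j + 1) k ∧ ¬ SmjA P L α j k) with hT
  have hTs : T ⊆ FK K := Finset.filter_subset _ _
  have hvbound : ∀ v ∈ Ico (hN ^ 2) (hN ^ 3),
      ∑ k ∈ T, ‖P hN v k * G (Y * Real.exp (-((v : ℝ) / hN))) k‖ ^ 2 ≤
        (lN : ℝ) ^ 3 * (1 / D / (2 * (lN : ℝ) ^ 21)) := by
    intro v hv
    rw [Finset.mem_Ico] at hv
    have hcover : ∀ k ∈ T, ‖P hN v k * G (Y * Real.exp (-((v : ℝ) / hN))) k‖ ^ 2 ≤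
        ∑ r ∈ Ico (lN ^ 2) (lN ^ 3), (if Real.exp (-(aa α j * r / lN)) < ‖P lN r k‖ then
          ‖P hN v k * G (Y * Real.exp (-((v : ℝ) / hN))) k‖ ^ 2 else 0) := by
      intro k hk
      rw [hT, Finset.mem_filter] at hk
      have h1 := hk.2.2
      unfold SmjA SmA at h1
      push Not at h1
      obtain ⟨r, hr, hr2⟩ := h1
      have h2 := Finset.single_le_sum (f := fun r : ℕ => (if Real.exp (-(aa α j * r / lN)) < ‖P lN r k‖
          then ‖P hN v k * G (Y * Real.exp (-((v : ℝ) / hN))) k‖ ^ 2 else 0))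
          (fun r _ => by split_ifs <;> positivity) hr
      rw [if_pos hr2] at h2
      exact h2
    refine (Finset.sum_le_sum hcover).trans ?_
    rw [Finset.sum_comm]
    have hrb : ∀ r ∈ Ico (lN ^ 2) (lN ^ 3),
        ∑ k ∈ T, (if Real.exp (-(aa α j * r / lN)) < ‖P lN r k‖ then
          ‖P hN v k * G (Y * Real.exp (-((v : ℝ) / hN))) k‖ ^ 2 else 0) ≤
        (1 / D / (2 * (lN : ℝ) ^ 21)) := by
      intro r hr
      rw [Finset.mem_Ico] at hr
      obtain ⟨n, hn1, hn2⟩ := xlevb_vr' hC₀.le hmom hα hα1 (lN := lN) (hN := hN) (v := v) (r := r)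
        (K := K) j (Y := Y) hl1 hh1 hv.2 hr.1 hr.2 hK hKY hY T hTs (fun k hk => by
          rw [hT, Finset.mem_filter] at hk
          exact hk.2.1 v (Finset.mem_Ico.2 hv))
      refine hn2.trans ?_
      have hx1 : (lN : ℝ) ^ 3 ≤ (v : ℝ) / hN := by
        rw [le_div_iff₀ (by linarith), ← hhreal]
        have h1 : (hN : ℝ) ^ 2 ≤ v := by exact_mod_cast hv.1
        calc (hN : ℝ) * hN = (hN : ℝ) ^ 2 := by ring
          _ ≤ v := h1
      have hx2 : (v : ℝ) / hN ≤ (lN : ℝ) ^ 6 := by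
        rw [div_le_iff₀ (by linarith)]
        have h1 : (v : ℝ) ≤ (hN : ℝ) ^ 3 := by exact_mod_cast hv.2.le
        have h2 : (lN : ℝ) ^ 6 * hN = (hN : ℝ) ^ 3 := by rw [hhreal]; ring
        rw [h2]
        exact h1
      have hreal := levb_real' hC₀1 hα hα1 hL4 hCL hLα j hlreal hx1 hx2 n hn1
      rw [hlogl] at hreal
      rw [le_div_iff₀ (by positivity)]
      linarith
    calc ∑ r ∈ Ico (lN ^ 2) (lN ^ 3), ∑ k ∈ T, (if Real.exp (-(aa α j * r / lN)) < ‖P lN r k‖ then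
          ‖P hN v k * G (Y * Real.exp (-((v : ℝ) / hN))) k‖ ^ 2 else 0)
        ≤ ∑ r ∈ Ico (lN ^ 2) (lN ^ 3), (1 / D / (2 * (lN : ℝ) ^ 21)) :=
          Finset.sum_le_sum hrb
      _ = ((Ico (lN ^ 2) (lN ^ 3)).card : ℝ) * (1 / D / (2 * (lN : ℝ) ^ 21)) := by
          rw [Finset.sum_const, nsmul_eq_mul]
      _ ≤ (lN : ℝ) ^ 3 * (1 / D / (2 * (lN : ℝ) ^ 21)) := by
          apply mul_le_mul_of_nonneg_right _ (by positivity)
          rw [Nat.card_Ico]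
          have : lN ^ 3 - lN ^ 2 ≤ lN ^ 3 := Nat.sub_le _ _
          exact_mod_cast this
  have hcard : ((Ico (hN ^ 2) (hN ^ 3)).card : ℝ) ≤ (lN : ℝ) ^ 9 := by
    rw [Nat.card_Ico]
    have h1 : hN ^ 3 - hN ^ 2 ≤ hN ^ 3 := Nat.sub_le _ _
    have h2 : hN ^ 3 = lN ^ 9 := by rw [hhN, ← pow_mul]
    rw [h2] at h1
    have h3 : hN ^ 3 - hN ^ 2 ≤ lN ^ 9 := by rw [h2]; exact h1
    exact_mod_cast h3
  have hpart1 : ∑ k ∈ T, 2 * (((Ico (hN ^ 2) (hN ^ 3)).card : ℝ) *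
      ∑ v ∈ Ico (hN ^ 2) (hN ^ 3), ‖P hN v k * G (Y * Real.exp (-((v : ℝ) / hN))) k‖ ^ 2) ≤
      1 / D := by
    rw [← Finset.mul_sum, ← Finset.mul_sum, Finset.sum_comm]
    have h1 : ∑ v ∈ Ico (hN ^ 2) (hN ^ 3), ∑ k ∈ T,
        ‖P hN v k * G (Y * Real.exp (-((v : ℝ) / hN))) k‖ ^ 2 ≤
        (lN : ℝ) ^ 9 * ((lN : ℝ) ^ 3 * (1 / D / (2 * (lN : ℝ) ^ 21))) := by
      refine (Finset.sum_le_sum hvbound).trans ?_
      rw [Finset.sum_const, nsmul_eq_mul]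
      exact mul_le_mul_of_nonneg_right hcard (by positivity)
    have h2 : (0 : ℝ) < (lN : ℝ) ^ 21 := by positivity
    calc 2 * (((Ico (hN ^ 2) (hN ^ 3)).card : ℝ) * ∑ v ∈ Ico (hN ^ 2) (hN ^ 3), ∑ k ∈ T,
        ‖P hN v k * G (Y * Real.exp (-((v : ℝ) / hN))) k‖ ^ 2)
        ≤ 2 * ((lN : ℝ) ^ 9 * ((lN : ℝ) ^ 9 * ((lN : ℝ) ^ 3 *
          (1 / D / (2 * (lN : ℝ) ^ 21))))) := by
          apply mul_le_mul_of_nonneg_left _ (by norm_num)
          apply mul_le_mul hcard h1 (Finset.sum_nonneg fun v _ =>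
            Finset.sum_nonneg fun k _ => by positivity) (by positivity)
      _ = 1 / D := by
          field_simp
  -- the total
  have htotal : ∑ k ∈ T, ‖G Y k‖ ^ 2 ≤ ∑ k ∈ T, (2 * (((Ico (hN ^ 2) (hN ^ 3)).card : ℝ) *
      ∑ v ∈ Ico (hN ^ 2) (hN ^ 3), ‖P hN v k * G (Y * Real.exp (-((v : ℝ) / hN))) k‖ ^ 2) +
        2 * ‖E k‖ ^ 2) := by
    refine Finset.sum_le_sum fun k _ => ?_
    exact levb_sq _ _ _ _ W hW1 (hGG k)
  rw [Finset.sum_add_distrib] at htotal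
  have hlast : ∑ k ∈ T, 2 * ‖E k‖ ^ 2 ≤ 2 * (CD * κ / D) := by
    rw [← Finset.mul_sum]
    apply mul_le_mul_of_nonneg_left _ (by norm_num)
    refine le_trans ?_ hpart2
    exact Finset.sum_le_sum_of_subset_of_nonneg hTs fun k _ _ => by positivity
  have hfin : (1 + 2 * (CD * κ)) / D =
      1 / D + 2 * (CD * κ / D) := by ring
  rw [hfin]
  linarith

end Pool.Agent.W240.GA
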