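import Pool.Agent.W78.GA.Basic
import Pool.Agent.H304R2.Lam

/-! Project GA (helper78), task GA-23: the Liouville function is not constant on the norms. -/

set_option autoImplicit false

namespace Pool.Agent.W240.GA
open Finset Pool.Agent.H376R2.MR Pool.Agent.W78.GA

theorem u0 {t c : ℤ} (hD : t ^ 2 < 4 * c) : S_U0 t c := by
  have hsq : ¬ IsSquare (t ^ 2 - 4 * c) := by
    rintro ⟨r, hr⟩
    nlinarith [mul_self_nonneg r]
  obtain ⟨N0, hN0⟩ := Pool.Agent.H304R2.main_lam t c hsq (-1) (Or.inr rfl) (1 / 2) (by norm_num)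
  have h := hN0 (N0 + 1) (by omega)
  have hpos : (0 : ℝ) < (((N0 + 1 : ℕ) : ℝ)) ^ ((1 : ℝ) - 1 / 2) :=
    Real.rpow_pos_of_pos (by positivity) _
  have hcard := lt_of_lt_of_le hpos h
  have hcard' := Nat.cast_pos.mp hcard
  obtain ⟨n, hn⟩ := Finset.card_pos.mp hcard'
  rw [Finset.mem_filter] at hn
  refine ⟨⟨(n : ℤ), 1⟩, ?_, ?_⟩
  · intro h0
    have := congrArg QuadraticAlgebra.im h0
    simp at this
  · have e : nm (⟨(n : ℤ), 1⟩ : Qd t c) = ((n : ℤ) ^ 2 + t * n + c).natAbs := by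
      unfold nm
      congr 1
      ring
    unfold lam
    rw [e]
    exact hn.2

end Pool.Agent.W240.GA
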